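import Pool.Agent.H86.CarpetDense

/-!
# MP_a5d4d5_an, Q1: slices of Bedford-McMullen carpets by lines

The answer is negative, and the lines for which the bound fails can be dense. The carpet of the
proof has `m = 2^64`, `n = 3 * 2^126` and the cross-shaped digit set
`D = {(i,0) : i < m} ∪ {(0,j) : j < n}`, so `log m / log n` is irrational.

* Definitions (file `Pool/Agent/H86/CarpetGeo.lean`): `Plane` is the Euclidean plane
  `EuclideanSpace ℝ (Fin 2)`, `contraction m n (i,j) (x,y) = ((x+i)/m, (y+j)/n)`,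
  `IsCarpet m n D F`: `F` is a nonempty compact subset of `[0,1]²` with
  `F = ⋃_{d ∈ D} contraction m n d '' F`, and `line p v = {p + t v : t real}`.
* `dim_H F ≤ 11/10`: a point `(x,y)` of `F` has, at each place, a zero digit of `x` in base `m` or
  a zero digit of `y` in base `n`; a covering argument over the levels `16 * 2^i`.
* Slices: the set of `x` whose base 4 digits are free in `{0,2}` on the places in
  `[4^(j+1), 7 * 4^j)`, `j ≥ 2`, and zero elsewhere has dimension at least `1/8`; if `p, q ≤ 2^K` then, for `x`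
  in this set with enough zero initial digits, `(q x / 2^K, p x / 2^K)` lies in `F`, since `n` is
  nearly `m^2` and the zero blocks of the digits of the two coordinates interlace. So each line
  through the origin, and, by self-affinity, each line through a corner point `S_w(0,0)`, of
  positive rational slope has a slice of dimension at least `1/8 > 1/10`.
* Every line of positive slope which meets the unit square meets rectangles `S_w([0,1]²)` for
  arbitrarily long words `w`, so the lines of the preceding item are dense.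
-/

set_option autoImplicit false

namespace Pool.Agent.H86.Kept.DenseLines

open Pool.Agent.H86.Carpet
open scoped ENNReal NNReal

/-- There are `2 ≤ m < n` with `log m / log n` irrational and a digit set `D` such that the
carpet `F = F(m,n,D)` has dimension at most `11/10`, while the set of lines `L` of positive
slope with `dim_H (F ∩ L) ≥ 1/8`, in particular `dim_H (F ∩ L) > max(dim_H F - 1, 0)`, is dense
among all lines of positive slope which meet the unit square. -/
theorem denseLines :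
    ∃ m n : ℕ, 2 ≤ m ∧ m < n ∧ Irrational (Real.log m / Real.log n) ∧
      ∃ D : Finset (ℕ × ℕ), D.Nonempty ∧ (∀ d ∈ D, d.1 < m ∧ d.2 < n) ∧
        (∃! F : Set Plane, IsCarpet m n D F) ∧
        ∀ F : Set Plane, IsCarpet m n D F →
          dimH F ≤ 11 / 10 ∧
          ∀ p v : Plane, (0 ≤ p 0 ∧ p 0 ≤ 1) → (0 ≤ p 1 ∧ p 1 ≤ 1) → 0 < v 0 → 0 < v 1 →
            ∀ ε : ℝ, 0 < ε → ∃ p' v' : Plane,
              ‖p' - p‖ < ε ∧ ‖v' - v‖ < ε ∧ 0 < v' 0 ∧ 0 < v' 1 ∧
              1 / 8 ≤ dimH (F ∩ line p' v') ∧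
              max (dimH F - 1) 0 < dimH (F ∩ line p' v') := by
  obtain ⟨m, hm⟩ : ∃ m : ℕ, m = 2 ^ 64 := ⟨_, rfl⟩
  obtain ⟨n, hn⟩ : ∃ n : ℕ, n = 3 * 2 ^ 126 := ⟨_, rfl⟩
  have hm1 : 2 ≤ m := by rw [hm]; norm_num
  have hn1 : 2 ≤ n := by rw [hn]; norm_num
  have hmn : m < n := by rw [hm, hn]; norm_num
  have hD : ∀ d ∈ cross m n, d.1 < m ∧ d.2 < n := fun d hd => cross_lt (by omega) (by omega) hd
  have hne : (cross m n).Nonempty := ⟨(0, 0), mem_cross.mpr (Or.inl ⟨by simp only; omega, rfl⟩)⟩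
  refine ⟨m, n, hm1, hmn, irr m n hm hn, cross m n, hne, hD, existsUnique_carpet hm1 hn1 hne hD, ?_⟩
  intro F hF
  have e1 : ((11 / 10 : ℝ≥0) : ℝ≥0∞) = 11 / 10 := by
    rw [ENNReal.coe_div (by norm_num)]
    simp
  have e2 : ((1 / 8 : ℝ≥0) : ℝ≥0∞) = 1 / 8 := by
    rw [ENNReal.coe_div (by norm_num)]
    simp
  have hdim : dimH F ≤ ((11 / 10 : ℝ≥0) : ℝ≥0∞) := by
    rw [hF.eq_FE hm1 hn1 hD, dimH_FE]
    exact dimH_F_le m n hm (by rw [hn]; norm_num) (by rw [hm, hn]; norm_num)
  refine ⟨by rw [← e1]; exact hdim, ?_⟩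
  intro p v hp0 hp1 hv0 hv1 ε hε
  obtain ⟨p', v', h1, h2, h3, h4, h5⟩ := dense_lines hm hn hF p v hp0 hp1 hv0 hv1 ε hε
  refine ⟨p', v', h1, h2, h3, h4, by rw [← e2]; exact h5, ?_⟩
  have h6 : dimH F - 1 ≤ ((1 / 10 : ℝ≥0) : ℝ≥0∞) := by
    rw [tsub_le_iff_right]
    refine hdim.trans (le_of_eq ?_)
    have : ((1 : ℝ≥0) : ℝ≥0∞) = 1 := rfl
    rw [← this, ← ENNReal.coe_add]
    congr 1
    rw [← NNReal.coe_inj]
    push_cast
    norm_num
  refine lt_of_le_of_lt (max_le h6 bot_le) (lt_of_lt_of_le ?_ h5)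
  rw [ENNReal.coe_lt_coe, ← NNReal.coe_lt_coe]
  push_cast
  norm_num

end Pool.Agent.H86.Kept.DenseLines
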